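import Pool.Agent.H307Z.Piv.Main
set_option autoImplicit false

namespace Pool.Agent.Results.MP_4d246d_lc.ARankMemoryLP

open Finset Pool.Agent.H307Z.Piv

/-- Every pivot rule with `M` memory states which sees the list of the positive reduced costs in
the order of the indices and picks a position in that list needs at least `2 ^ t - 1` pivots on
some nondegenerate bounded linear program with `n` equations, `2 n` variables and small integer
data, whenever `5 M + 6 t ≤ n`. -/
theorem result (n M t : ℕ) (hn : 5 * M + 6 * t ≤ n) (R : Rule M) :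
    ∃ (A : Matrix (Fin n) (Fin (2 * n)) ℤ) (b : Fin n → ℤ) (c : Fin (2 * n) → ℤ),
      (∀ i j, |A i j| ≤ 2) ∧ (∀ j, |c j| ≤ 1) ∧ (∀ i, |b i| ≤ (4 * n + 1) ^ (t + 1)) ∧
      Bornology.IsBounded (feas A b) ∧
      LinearIndependent ℝ (fun i j => (A i j : ℝ)) ∧
      (∀ v ∈ (feas A b).extremePoints ℝ, (univ.filter fun j => v j ≠ 0).card = n) ∧
      ∃ (v : ℕ → Fin (2 * n) → ℝ) (s : ℕ → Fin M),
        v 0 ∈ (feas A b).extremePoints ℝ ∧ s 0 = R.init ∧
        ∀ l, l + 1 < 2 ^ t →
          Step R A b c (v l) (s l) (v (l + 1)) (s (l + 1)) ∧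
          obj c (v l) < obj c (v (l + 1)) ∧
          ∀ w s', Step R A b c (v l) (s l) w s' → w = v (l + 1) ∧ s' = s (l + 1) :=
  main n M t hn R

end Pool.Agent.Results.MP_4d246d_lc.ARankMemoryLP
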